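import Pool.Agent.Helper13.RR.FW

/-!
# Project SX: factorisation of Kummer classes with bounded data
-/

set_option linter.unusedSectionVars false

universe u

namespace Pool.Agent.SX

open VC Polynomial IntermediateField Pool.Agent.Helper37.UL Pool.Agent.TD Pool.Agent.RRW

/-- **Factorisation.** -/
theorem exists_factorW {S : Type u} [Field S] [IsAlgClosed S] [CharZero S] {κ0 κ Kg k0 : Subfield S}
    (h0 : κ0 ≤ κ) (hκ0 : ∀ x : S, IsAlgebraic κ0 x → x ∈ κ0) (hκ : ∀ x : S, IsAlgebraic κ x → x ∈ κ)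
    {t : S} (ht : Transcendental κ t) (hKg : κ ≤ Kg) (htg : t ∈ Kg)
    (hk0 : ∀ x ∈ κ0, IsAlgebraic k0 x) (htk : t ∈ k0)
    {D p B M N r : ℕ} (hp : 0 < p) (hB : 0 < B) {b : Fin (M + 1) → S}
    (hb : ∀ l, b l ∈ κ0) (hb0 : ∃ l, b l ≠ 0) {ψ : Fin N → S}
    (hψalg : ∀ i, IsAlgebraic (IntermediateField.adjoin κ0 {t}) (ψ i)) {v : Fin r → S}
    (hv : ∀ l, v l ∈ Set.range ψ) {w : S}
    (hw : w ≠ 0) (hD : DataR κ Kg t D 0 p B (fun (_ : Fin (0 + 1)) (l : Fin (M + 1)) => b l) v w) :
    ∃ e g : S, IsAlgebraic k0 e ∧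
      g ∈ Subfield.closure ((Kg : Set S) ∪ Set.range ψ) ∧
      w = e * g := by
  classical
  obtain ⟨g, s, G, c, c', hg, hs, hG, hgG, hA, hR, hc, hc', hχ, hχ', hgood⟩ := hD
  -- the fields
  let iκ : Algebra κ0 κ := (Subfield.inclusion h0).toAlgebra
  have hst : IsScalarTower κ0 κ S := IsScalarTower.of_algebraMap_eq fun _ => rfl
  have hcκ0 : IsAlgClosed κ0 := isAlgClosed_of hκ0
  have hcκ : IsAlgClosed κ := isAlgClosed_of hκ
  have ht0 : Transcendental κ0 t := fun h => ht (isAlgebraic_mono h0 h)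
  set X0 : Set S := {t} ∪ Set.range ψ with hX0
  have htX : t ∈ X0 := Or.inl rfl
  have hψX : ∀ i, ψ i ∈ X0 := fun i => Or.inr ⟨i, rfl⟩
  have hvX : ∀ l, v l ∈ X0 := fun l => Or.inr (hv l)
  obtain ⟨htF, hfinF⟩ := isFunctionField_adjoin ht0 ψ hψalg
  have hFF : IsFunctionField κ0 (adjoin κ0 X0) := ⟨_, transcendental_mk ht0 htF, hfinF⟩
  have halg : Algebra.IsAlgebraic κ0⟮(⟨t, htF⟩ : adjoin κ0 X0)⟯ (adjoin κ0 X0) := inferInstance
  let iFM := algAA κ0 κ X0
  obtain ⟨hT, hM⟩ := isConstExt_adjoin (κ := κ) X0 ht htF halg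
  have hMF : IsFunctionField κ (adjoin κ X0) := hM.isFunctionField hFF
  have hAM : (w * g) ^ p ∈ adjoin κ X0 := mem_of_cpxR ht hA (subset_adjoin _ _ htX)
    (fun l => subset_adjoin _ _ (hvX l))
  have hRM : s ∈ adjoin κ X0 := mem_of_cpxR ht hR (subset_adjoin _ _ htX)
    (fun l => subset_adjoin _ _ (hvX l))
  have htM : t ∈ adjoin κ X0 := subset_adjoin _ _ htX
  have hA0 : (⟨(w * g) ^ p, hAM⟩ : adjoin κ X0) ≠ 0 := fun h =>
    pow_ne_zero p (mul_ne_zero hw hg) (congrArg Subtype.val h)
  have hr0 : (⟨s, hRM⟩ : adjoin κ X0) ≠ 0 := fun h => hs (congrArg Subtype.val h)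
  obtain ⟨c1, f, g1, hc10, hf0, hg10, hfac⟩ := FF.kummer_descent hM hFF hp.ne' hA0 (by
    intro Q φ hφ
    -- the value of `t`
    let tF : adjoin κ0 X0 := ⟨t, htF⟩
    let t₀ : κ := φ tF
    have htQ : (⟨t, htM⟩ : adjoin κ X0) - algebraMap κ (adjoin κ X0) t₀ ∈ Q.ring.nonunits :=
      hφ tF
    have htQ1 : (⟨t, htM⟩ : adjoin κ X0) ∈ Q.ring := hφ.mem tF
    let bF : Fin (M + 1) → κ0 := fun l => ⟨b l, hb l⟩
    have hφb : ∀ l, ((φ (algebraMap κ0 _ (bF l)) : κ) : S) = b l := by
      intro l
      rw [AlgHom.commutes]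
      rfl
    have hGood : Good κ (fun (_ : Fin (0 + 1)) (l : Fin (M + 1)) => b l) (t₀ : S) := by
      refine ⟨?_, Fin.elim0, fun i => i.elim0, fun i => i.elim0, fun i => i.elim0⟩
      intro h1
      apply sum_ne_zero_of_transcendental ht0 hb hb0
      have h2 : φ (∑ l, algebraMap κ0 _ (bF l) * tF ^ (l : ℕ)) = 0 := by
        apply Subtype.ext
        rw [map_sum]
        push_cast
        rw [← h1]
        apply Finset.sum_congr rfl
        intro l _
        rw [map_mul, map_pow]
        push_cast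
        rw [hφb]
      have h3 := (map_eq_zero_iff φ φ.toRingHom.injective).mp h2
      have h4 := congrArg Subtype.val h3
      push_cast at h4
      exact h4
    have hor := hgood t₀ t₀.2 hGood ⟨0, hB⟩ rfl
    -- units
    have hunit : ∀ (u : Fin B → Fin (B + 1) → S) (hu : ∀ i l, u i l ∈ κ) (y : S)
        (hy : y ∈ adjoin κ X0), y ^ B + ∑ i, (∑ l, u i l * t ^ (l : ℕ)) * y ^ (i : ℕ) = 0 →
        ∑ l, u ⟨0, hB⟩ l * (t₀ : S) ^ (l : ℕ) ≠ 0 → y ≠ 0 →
        ord Q.ring (⟨y, hy⟩ : adjoin κ X0) = 0 := by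
      intro u hu y hy hrel hne hy0
      let uM : Fin B → Fin (B + 1) → κ := fun i l => ⟨u i l, hu i l⟩
      obtain ⟨h1, h2⟩ := unit_of_rel (R := Q.ring) hB
        (c := fun i => ∑ l, algebraMap κ _ (uM i l) * (⟨t, htM⟩ : adjoin κ X0) ^ (l : ℕ))
        (x := ⟨y, hy⟩) (fun i => by
          apply sum_mem
          intro l _
          exact mul_mem (Q.algebraMap_mem _) (pow_mem htQ1 _)) (by
          apply Subtype.ext
          push_cast
          exact hrel) (by
          intro i hi hcon
          have hi' : i = ⟨0, hB⟩ := Fin.ext hi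
          subst hi'
          have h3 := sum_sub_mem htQ (uM ⟨0, hB⟩)
          have h4 := sub_mem hcon h3
          rw [sub_sub_cancel] at h4
          have h5 := FF.algebraMap_mem_nonunits Q h4
          apply hne
          have h6 := congrArg (fun y : κ => (y : S)) h5
          push_cast at h6
          exact h6)
      exact ord_eq_zero_of_unit hMF Q (fun h => hy0 (congrArg Subtype.val h)) h1 h2
    rcases hor with h1 | h1
    · rw [hunit c hc _ hAM hχ h1 (pow_ne_zero p (mul_ne_zero hw hg))]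
      exact dvd_zero _
    · have hAr : (w * g * s) ^ p ∈ adjoin κ X0 := by
        rw [mul_pow]
        exact mul_mem hAM (pow_mem hRM p)
      have h2 := hunit c' hc' _ hAr hχ' h1 (pow_ne_zero p (mul_ne_zero (mul_ne_zero hw hg) hs))
      have h3 : (⟨(w * g * s) ^ p, hAr⟩ : adjoin κ X0) = ⟨(w * g) ^ p, hAM⟩ * ⟨s, hRM⟩ ^ p := by
        apply Subtype.ext
        push_cast
        rw [mul_pow]
      rw [h3, ord_mul hMF Q hA0 (pow_ne_zero _ hr0)] at h2
      have h4 : ord Q.ring ((⟨s, hRM⟩ : adjoin κ X0) ^ p) = p * ord Q.ring ⟨s, hRM⟩ := by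
        have h5 := DFunLike.congr_fun (FF.dv_pow hMF hr0 p) Q
        rw [FF.dv_apply, Finsupp.smul_apply, FF.dv_apply, nsmul_eq_mul] at h5
        exact h5
      rw [h4] at h2
      exact ⟨- ord Q.ring ⟨s, hRM⟩, by linarith⟩)
  -- conclusion
  have hfac' : (w * g) ^ p = (c1 : S) * f * (g1 : S) ^ p := by
    have := congrArg Subtype.val hfac
    push_cast at this
    exact this
  obtain ⟨c2, hc2⟩ := IsAlgClosed.exists_pow_nat_eq (c1 : κ) hp
  obtain ⟨e, he⟩ := IsAlgClosed.exists_pow_nat_eq (f : S) hp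
  have hfS : (f : S) ≠ 0 := fun h => hf0 (Subtype.ext h)
  have he0 : e ≠ 0 := by
    intro h
    rw [h, zero_pow hp.ne'] at he
    exact hfS he.symm
  refine ⟨e, w / e, ?_, ?_, ?_⟩
  · -- algebraicity
    have h1 : ∀ x ∈ adjoin κ0 X0, IsAlgebraic k0 x := by
      have hκ0L : ∀ x ∈ κ0, x ∈ algebraicClosure k0 S := fun x hx =>
        mem_algebraicClosure_iff.mpr (hk0 x hx)
      have htL : t ∈ algebraicClosure k0 S :=
        (algebraicClosure k0 S).algebraMap_mem (⟨t, htk⟩ : k0)
      have hψL : ∀ i, ψ i ∈ algebraicClosure k0 S := by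
        intro i
        rw [mem_algebraicClosure_iff]
        let φ : IntermediateField.adjoin κ0 {t} →+* algebraicClosure k0 S :=
          (algebraMap (IntermediateField.adjoin κ0 {t}) S).codRestrict
            (algebraicClosure k0 S).toSubfield.toSubring (fun x => by
              have h3 : (IntermediateField.adjoin κ0 {t} : IntermediateField κ0 S).toSubfield ≤
                  (algebraicClosure k0 S).toSubfield := by
                rw [IntermediateField.adjoin_toSubfield, Subfield.closure_le]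
                rintro y (⟨c, rfl⟩ | hy)
                · exact hκ0L _ c.2
                · rw [Set.mem_singleton_iff] at hy
                  rw [hy]
                  exact htL
              exact h3 x.2)
        have h2 : IsAlgebraic (algebraicClosure k0 S) (ψ i) := by
          obtain ⟨q, hq0, hq⟩ := hψalg i
          refine ⟨q.map φ, (Polynomial.map_ne_zero_iff φ.injective).2 hq0, ?_⟩
          rw [aeval_def, eval₂_map]
          exact hq
        exact (isIntegral_trans (R := k0) (A := algebraicClosure k0 S) _ h2.isIntegral).isAlgebraic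
      intro x hx
      rw [← IntermediateField.mem_toSubfield, IntermediateField.adjoin_toSubfield] at hx
      have h2 : Subfield.closure (Set.range (algebraMap κ0 S) ∪ X0) ≤
          (algebraicClosure k0 S).toSubfield := by
        rw [Subfield.closure_le]
        rintro y (⟨c, rfl⟩ | (hy | ⟨i, rfl⟩))
        · exact hκ0L _ c.2
        · rw [Set.mem_singleton_iff] at hy
          rw [hy]
          exact htL
        · exact hψL i
      exact mem_algebraicClosure_iff.mp (h2 hx)
    have h2 := h1 f f.2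
    rw [← he] at h2
    exact IsAlgebraic.of_pow hp h2
  · -- the second factor
    have hc20 : (c2 : S) ≠ 0 := by
      intro h
      apply hc10
      rw [← hc2, Subtype.ext (a2 := (0 : κ)) h, zero_pow hp.ne']
    have hg1S : (g1 : S) ≠ 0 := fun h => hg10 (Subtype.ext h)
    have hc2' : (c2 : S) ^ p = c1 := by
      have := congrArg Subtype.val hc2
      push_cast at this
      exact this
    have hζ : (w * g / (c2 * e * g1)) ^ p = 1 := by
      rw [div_pow, hfac', mul_pow, mul_pow, hc2', he, div_self]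
      refine mul_ne_zero (mul_ne_zero ?_ hfS) (pow_ne_zero _ hg1S)
      rw [← hc2']
      exact pow_ne_zero _ hc20
    have hζκ : w * g / (c2 * e * g1) ∈ κ := by
      apply hκ
      apply IsAlgebraic.of_pow hp
      rw [hζ]
      exact isAlgebraic_one
    have hcl : ∀ x ∈ adjoin κ X0, x ∈ Subfield.closure ((Kg : Set S) ∪ Set.range ψ) := by
      intro x hx
      rw [← IntermediateField.mem_toSubfield, IntermediateField.adjoin_toSubfield] at hx
      have h1 : Subfield.closure (Set.range (algebraMap κ S) ∪ X0) ≤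
          Subfield.closure ((Kg : Set S) ∪ Set.range ψ) := by
        rw [Subfield.closure_le]
        rintro y (⟨c, rfl⟩ | (hy | hy))
        · exact Subfield.subset_closure (Or.inl (hKg c.2))
        · rw [Set.mem_singleton_iff] at hy
          rw [hy]
          exact Subfield.subset_closure (Or.inl htg)
        · exact Subfield.subset_closure (Or.inr hy)
      exact h1 hx
    have hκcl : ∀ x ∈ κ, x ∈ Subfield.closure ((Kg : Set S) ∪ Set.range ψ) := fun x hx =>
      Subfield.subset_closure (Or.inl (hKg hx))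
    have hψcl : ∀ i, ψ i ∈ Subfield.closure ((Kg : Set S) ∪ Set.range ψ) := fun i =>
      Subfield.subset_closure (Or.inr ⟨i, rfl⟩)
    have hgcl : g ∈ Subfield.closure ((Kg : Set S) ∪ Set.range ψ) := by
      rw [hgG]
      apply Subfield.sum_mem
      intro β _
      refine Subfield.mul_mem _ (Subfield.subset_closure (Or.inl (hG _))) ?_
      refine Subfield.prod_mem _ fun l _ => Subfield.pow_mem _ ?_ _
      obtain ⟨i, hi⟩ := hv l
      rw [← hi]
      exact hψcl i
    have hwe : w / e = (w * g / (c2 * e * g1)) * c2 * g1 / g := by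
      field_simp
    rw [hwe]
    exact Subfield.div_mem _ (Subfield.mul_mem _ (Subfield.mul_mem _ (hκcl _ hζκ)
      (hκcl _ c2.2)) (hcl _ g1.2)) hgcl
  · rw [mul_div_cancel₀ _ he0]

end Pool.Agent.SX
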