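import Pool.Agent.Helper13.PL.D2
import Pool.Agent.Helper13.SX.D1

/-!
# Project SX: bounded data, in terms of coefficient vectors
-/

set_option linter.unusedVariables false

universe u

namespace Pool.Agent.SX

open Polynomial Pool.Agent.Helper37.UL Pool.Agent.TD Pool.Agent.PL

/-- **Bounded data**, in terms of coefficient vectors. -/
theorem data_vec (r D m' M p : ℕ) (hp : 0 < p) (hD : 0 < D) :
    ∃ B : ℕ, 0 < B ∧
    ∀ {C : Type u} [Field C] [CharZero C] [IsAlgClosed C]
      {κ : Subfield C} (hcl : ∀ x : C, IsAlgebraic κ x → x ∈ κ) {T : C} (htr : Transcendental κ T)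
      (halg : ∀ x : C, IsAlgebraic (Subfield.closure ((κ : Set C) ∪ {T})) x)
      {v : Fin r → C}
      (hv : ∀ i, ∃ c : Fin (D + 1) → Fin (m' + 1) → C, (∀ l j, c l j ∈ κ) ∧ c (Fin.last D) ≠ 0 ∧
        ∑ l, (∑ j, c l j * T ^ (j : ℕ)) * v i ^ (l : ℕ) = 0)
      {w : C} (hw : w ≠ 0)
      (hwp : w ^ p ∈ Subfield.closure ((κ : Set C) ∪ insert T (Set.range v)))
      {b : Fin (M + 1) → C} (hb : ∀ l, b l ∈ κ) (hb0 : ∃ l, b l ≠ 0)
      (hin : ∀ V : ValuationSubring C, (∀ c ∈ κ, c ∈ V) → ∀ t₀ ∈ κ, V.valuation (T - t₀) < 1 →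
        ∑ l, b l * t₀ ^ (l : ℕ) ≠ 0 → ∀ σ : C ≃+* C,
        Inert (Subfield.closure ((κ : Set C) ∪ insert T (Set.range v))) V σ → σ w = w),
      DataR κ (Subfield.closure ((κ : Set C) ∪ {T})) T D 0 p B (fun (_ : Fin (0 + 1)) l => b l)
        v w := by
  obtain ⟨B, hB, H⟩ := SX.data_coreN.{u} r D m' M p hp hD
  refine ⟨B, hB, ?_⟩
  intro C _ _ _ κ hcl T htr halg v hv w hw hwp b hb hb0 hin
  have hκ : IsAlgClosed κ := by
    refine IsAlgClosed.of_exists_root _ fun q hq1 hq2 => ?_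
    obtain ⟨x, hx⟩ := IsAlgClosed.exists_aeval_eq_zero C q (Polynomial.degree_pos_of_irreducible hq2).ne'
    have hx1 : x ∈ κ := hcl x ⟨q, hq2.ne_zero, hx⟩
    refine ⟨⟨x, hx1⟩, ?_⟩
    apply Subtype.ext
    have h1 := aeval_algebraMap_apply C (⟨x, hx1⟩ : κ) q
    rw [← coe_aeval_eq_eval]
    change algebraMap κ C (aeval (⟨x, hx1⟩ : κ) q) = 0
    rw [← h1]
    exact hx
  choose c hc1 hc2 hc3 using hv
  -- the relations
  let P : ∀ (j : Fin r) (l : Fin (D + 1)), κ[X] := fun j l =>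
    polU fun i => (⟨c j l i, hc1 j l i⟩ : κ)
  let f : Fin r → κ[X][X] := fun j => ∑ l, Polynomial.C (P j l) * X ^ (l : ℕ)
  have hfc : ∀ j (l : Fin (D + 1)), (f j).coeff l = P j l := by
    intro j l
    change (∑ l, Polynomial.C (P j l) * X ^ (l : ℕ)).coeff (l : ℕ) = _
    rw [finsetSum_coeff, Finset.sum_eq_single l]
    · rw [coeff_C_mul_X_pow, if_pos rfl]
    · intro l' _ hl
      rw [coeff_C_mul_X_pow, if_neg]
      intro h
      exact hl (Fin.ext h.symm)
    · intro h
      exact absurd (Finset.mem_univ _) h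
  have hf0 : ∀ j, f j ≠ 0 := by
    intro j h0
    apply hc2 j
    funext i
    have h1 := hfc j (Fin.last D)
    rw [h0, coeff_zero] at h1
    have h2 := congrArg (fun q => Polynomial.coeff q (i : ℕ)) h1
    simp only [coeff_zero] at h2
    have h3 : (P j (Fin.last D)).coeff (i : ℕ) = (⟨c j (Fin.last D) i, hc1 j _ i⟩ : κ) :=
      polU_coeff _ i
    rw [h3] at h2
    exact (congrArg Subtype.val h2).symm
  have hfD : ∀ j, (f j).natDegree ≤ D := by
    intro j
    refine natDegree_sum_le_of_forall_le _ _ fun l _ => ?_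
    exact (natDegree_C_mul_X_pow_le _ _).trans (Nat.lt_succ_iff.1 l.2)
  have hfm : ∀ j i, ((f j).coeff i).natDegree ≤ m' := by
    intro j i
    by_cases hi : i < D + 1
    · have h1 := hfc j ⟨i, hi⟩
      rw [show (f j).coeff i = P j ⟨i, hi⟩ from h1]
      exact polU_natDegree_le _
    · rw [coeff_eq_zero_of_natDegree_lt (lt_of_le_of_lt (hfD j) (by omega)), natDegree_zero]
      exact Nat.zero_le _
  have hfrt : ∀ j, eval₂ (aeval T : κ[X] →ₐ[κ] C).toRingHom (v j) (f j) = 0 := by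
    intro j
    change eval₂ _ _ (∑ l, Polynomial.C (P j l) * X ^ (l : ℕ)) = 0
    rw [eval₂_finsetSum, ← hc3 j]
    refine Finset.sum_congr rfl fun l _ => ?_
    rw [eval₂_mul, eval₂_C, eval₂_X_pow]
    congr 1
    exact aeval_polU _ T
  -- the bad polynomial
  let bad : κ[X] := polU fun i => (⟨b i, hb i⟩ : κ)
  have hbadc : ∀ l : Fin (M + 1), ((bad.coeff l : κ) : C) = b l := by
    intro l
    have h1 : bad.coeff l = (⟨b l, hb l⟩ : κ) := polU_coeff _ l
    rw [h1]
  have hbad0 : bad ≠ 0 := by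
    intro h0
    obtain ⟨l, hl⟩ := hb0
    apply hl
    rw [← hbadc, h0, coeff_zero]
    rfl
  have hadj : (IntermediateField.adjoin κ (insert T (Set.range v))).toSubfield =
      Subfield.closure ((κ : Set C) ∪ insert T (Set.range v)) := adjoin_toSubfield κ _
  have halg' : ∀ x : C, IsAlgebraic (IntermediateField.adjoin κ {T}) x := by
    intro x
    have h1 : IsAlgebraic ((IntermediateField.adjoin κ {T}).toSubfield) x := by
      rw [adjoin_toSubfield]
      exact halg x
    exact h1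
  have hfun : (fun (_ : Fin (0 + 1)) (l : Fin (M + 1)) => ((bad.coeff l : κ) : C)) =
      fun (_ : Fin (0 + 1)) l => b l := by
    funext _ l
    exact hbadc l
  rw [← hfun]
  refine H κ hκ htr halg' hf0 hfD hfm hfrt hw ?_ hbad0 (polU_natDegree_le _) ?_
  · change w ^ p ∈ (IntermediateField.adjoin κ (insert T (Set.range v))).toSubfield
    rw [hadj]
    exact hwp
  · intro V hV t₀ ht hbt σ hσ
    rw [hadj] at hσ
    refine hin V hV t₀ t₀.2 ht ?_ σ hσ
    intro h0
    apply hbt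
    apply Subtype.ext
    have h1 := aeval_polU (fun i => (⟨b i, hb i⟩ : κ)) (t₀ : C)
    have h2 := aeval_algebraMap_apply C t₀ bad
    rw [coe_aeval_eq_eval] at h2
    change algebraMap κ C (bad.eval t₀) = 0
    rw [← h2]
    change aeval (t₀ : C) bad = 0
    rw [← h0]
    exact h1

end Pool.Agent.SX
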