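import Pool.Agent.Helper10.SX.Defs

/-!
# Project SX: the constants attached to a curve with a section, as a property of the curve

The degree of the extension is congruent to `c₀` modulo `p`, and `p` is not assumed to be a prime number.
-/

universe u v

set_option linter.unusedSectionVars false

namespace Pool.Agent.SX

open Polynomial Pool.Agent.Helper37.UL Pool.Agent.Helper91.Sect Pool.Agent.LT Pool.Agent.GC
  Pool.Agent.SC Pool.Agent.BT

/-- The property of the curve `f = rel = 0` that all certificates have constants `z i j`, for the power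
`T ^ c₀`. -/
def HasLevX (k₁ : Type u) {k : Type u} (C : Type u) [Field k₁] [Field k] [Field C] [Algebra k₁ k]
    [Algebra k C] (p c₀ : ℕ) {N d : ℕ} (r : ℕ) {U : Type} [Fintype U] {e : U → ℕ}
    (f : MonV (N + 2) d → k) (rel : ∀ u, MonV (N + 2) (e u) → k) : Prop :=
  ∀ {n M : ℕ}, n ≤ M →
    ∀ {G : Fin d → MonV (N + 2) n → C} {W : MonV (N + 2) (r * n) → C} {a b : ℕ}
      {H : MonV (N + 2) a → C} {H' : U → MonV (N + 2) b → C} {T : k}, T ≠ 0 →
    ∏ i, pol (G i) = MvPolynomial.C (algebraMap k C T) * pol W ^ p +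
      comb (fun q => algebraMap k C (f q)) (fun u q => algebraMap k C (rel u q)) H H' →
    (∀ i j, i ≠ j → Cop (G i) (G j) (fun q => algebraMap k C (f q))
      (fun u q => algebraMap k C (rel u q)) M) →
    ∀ {M₂ M₂' M₃ : ℕ} {D : Fin d → MonV (N + 2) M₂ → C} {D' : Fin d → MonV (N + 2) M₂' → C}
      {D'' : Fin d → U → MonV (N + 2) M₂' → C} {c : Fin d → Fin (M₃ + 1) → C}, (∀ i, c i ≠ 0) →
    (∀ i, pol (D i) * pol (G i) + comb (fun q => algebraMap k C (f q))
      (fun u q => algebraMap k C (rel u q)) (D' i) (D'' i) = polX (c i)) →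
    ∃ z : Fin d → Fin d → C, BT.LevZ p G W (T ^ c₀) z ∧ LevIV k₁ f rel G D c z

/-- A curve which maps to the curve `f = rel = 0`, over an extension of degree congruent to `c₀` modulo `p`,
with a Galois section. -/
def HasSecX {k : Type u} [Field k] (p c₀ : ℕ) {N d : ℕ} {U : Type} {e : U → ℕ}
    (f : MonV (N + 2) d → k) (rel : ∀ u, MonV (N + 2) (e u) → k) : Prop :=
  ∃ (k' : Type u) (_ : Field k') (_ : Algebra k k'), FiniteDimensional k k' ∧
    Module.finrank k k' % p = c₀ ∧ ∃ (K : Type u) (_ : Field K) (_ : Algebra k' K)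
      (x : Fin (N + 2) → K), Transcendental k' (x 0) ∧
      MvPolynomial.aeval x (pol fun q => algebraMap k k' (f q)) = 0 ∧
      (∀ u, MvPolynomial.aeval x (pol fun q => algebraMap k k' (rel u q)) = 0) ∧
      Nonempty (GaloisSection k' K)

theorem HasSecX.smul {k : Type u} [Field k] {p c₀ : ℕ} {N d : ℕ} {U : Type} {e : U → ℕ}
    {f : MonV (N + 2) d → k} {rel : ∀ u, MonV (N + 2) (e u) → k} (h : HasSecX p c₀ f rel) (c : k)
    (c' : U → k) : HasSecX p c₀ (fun q => c * f q) (fun u q => c' u * rel u q) := by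
  obtain ⟨k', i1, i2, h1, h2, K, i3, i4, x, hx, hf, hrel, hs⟩ := h
  refine ⟨k', i1, i2, h1, h2, K, i3, i4, x, hx, ?_, fun u => ?_, hs⟩
  · simp only [map_mul]
    rw [pol_smul, map_mul, hf, mul_zero]
  · simp only [map_mul]
    rw [pol_smul, map_mul, hrel, mul_zero]

/-- a section over an extension whose degree is not divisible by `p` -/
theorem hasSecX_of_hasSecV {k : Type u} [Field k] {p : ℕ} (hp : 0 < p) {N d : ℕ} {U : Type}
    {e : U → ℕ} {f : MonV (N + 2) d → k} {rel : ∀ u, MonV (N + 2) (e u) → k}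
    (h : BT.HasSecV p f rel) : ∃ c₀, 0 < c₀ ∧ c₀ < p ∧ HasSecX p c₀ f rel := by
  obtain ⟨k', i1, i2, h1, h2, hrest⟩ := h
  exact ⟨Module.finrank k k' % p, Nat.pos_of_ne_zero fun h0 => h2 (Nat.dvd_of_mod_eq_zero h0),
    Nat.mod_lt _ hp, k', i1, i2, h1, rfl, hrest⟩

/-- the two forms of the norm relation -/
theorem levZ_pow {k C : Type u} [Field k] [Field C] [Algebra k C] [IsAlgClosed C] {p c d : ℕ}
    (hp : 0 < p) {ι κ : Type} {G : Fin d → ι → C} {W : κ → C} {T : k} (hT : T ≠ 0)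
    {z : Fin d → Fin d → C} (h : LevZ p c G W T z) : BT.LevZ p G W (T ^ c) z := by
  refine ⟨h.ne, h.pow, h.equi, h.coc, fun β hβ i => ?_⟩
  obtain ⟨α, hα⟩ : ∃ α : C, α ^ p = algebraMap k C T := IsAlgClosed.exists_pow_nat_eq _ hp
  have hα0 : α ≠ 0 := by
    rintro rfl
    rw [zero_pow hp.ne'] at hα
    exact hT ((map_eq_zero _).1 hα.symm)
  have hc0 : α ^ c ≠ 0 := pow_ne_zero _ hα0
  have h1 := h.prod α hα i
  have h2 : β / α ^ c ∈ PL.mu C p := by
    change (β / α ^ c) ^ p = 1
    rw [div_pow, hβ, map_pow, ← hα, ← pow_mul, ← pow_mul, mul_comm, div_self]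
    exact pow_ne_zero _ hα0
  have h3 : β / ∏ j ∈ Finset.univ.erase i, z j i =
      β / α ^ c * (α ^ c / ∏ j ∈ Finset.univ.erase i, z j i) := by
    rw [div_mul_div_cancel₀ hc0]
  rw [h3]
  exact mul_mem (IntermediateField.subset_adjoin _ _ (Or.inl h2)) h1

end Pool.Agent.SX
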