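import Pool.Agent.Helper13.BT.LevS
import Pool.Agent.Helper13.SX.Lev
import Pool.Agent.Helper10.SX.A6

/-!
# Project SX: the constants attached to a curve with a section
-/

universe u v

set_option linter.unusedSectionVars false

namespace Pool.Agent.SX

open Polynomial Pool.Agent.Helper37.UL Pool.Agent.Helper91.Sect Pool.Agent.LT Pool.Agent.GC
  Pool.Agent.SC Pool.Agent.BT

/-- **The constants attached to a Galois section over an extension of degree prime to `p`.** -/
theorem hasLevX_of_hasSecX {k₁ k : Type u} [Field k₁] [CharZero k₁] [Field k] [Algebra k₁ k]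
    (hF₁ : ∃ S : Finset k₁, Subfield.closure (S : Set k₁) = ⊤)
    (t : k) (hfin : FiniteDimensional (IntermediateField.adjoin k₁ {t}) k)
    {p c₀ N d r : ℕ} (hp : 0 < p) (hd : d = p * r) {U : Type} [Fintype U] {e : U → ℕ}
    {f : MonV (N + 2) d → k} {rel : ∀ u, MonV (N + 2) (e u) → k} (hs : HasSecX p c₀ f rel)
    (C : Type u) [Field C] [Algebra k C] [IsAlgClosure k C] : HasLevX k₁ C p c₀ r f rel := by
  classical
  intro n M hnM G W a b H H' T hT hprod hcop M₂ M₂' M₃ D D' D'' c hc0 hnrm
  obtain ⟨k', _, _, hk', hdeg, K, _, _, x₀, hx₀, hf₀, hrel₀, ⟨s₀⟩⟩ := hs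
  have hk0 : CharZero k := charZero_of_injective_algebraMap (algebraMap k₁ k).injective
  have hk0' : CharZero k' := charZero_of_injective_algebraMap (algebraMap k k').injective
  -- reduction to `K = k'(x)`
  let K' : IntermediateField k' K := IntermediateField.adjoin k' (Set.range x₀)
  let x : Fin (N + 2) → K' := fun v => ⟨x₀ v, IntermediateField.subset_adjoin k' _ ⟨v, rfl⟩⟩
  obtain ⟨s⟩ : Nonempty (GaloisSection k' K') := Pool.Agent.TW.push (K₁ := K') s₀
  have hx : Transcendental k' (x 0) := by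
    intro h
    exact hx₀ (IsAlgebraic.algebraMap (A := K) h)
  have hval : ∀ {n₀ : ℕ} (g : MonV (N + 2) n₀ → k'), MvPolynomial.aeval x₀ (pol g) = 0 →
      MvPolynomial.aeval x (pol g) = 0 := by
    intro n₀ g h0
    apply Subtype.ext
    have h1 : ((MvPolynomial.aeval x (pol g) : K') : K) = MvPolynomial.aeval x₀ (pol g) := by
      rw [aeval_pol, aeval_pol]
      change K'.val _ = _
      rw [map_sum]
      refine Finset.sum_congr rfl fun q _ => ?_
      rw [map_mul, Finsupp.prod, Finsupp.prod, map_prod]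
      rfl
    rw [h1, h0]
    rfl
  have hf := hval _ hf₀
  have hrel : ∀ u, MvPolynomial.aeval x (pol fun q => algebraMap k k' (rel u q)) = 0 := fun u =>
    hval _ (hrel₀ u)
  have hgen : IntermediateField.adjoin k' (Set.range x) = ⊤ := by
    apply IntermediateField.map_injective K'.val
    rw [IntermediateField.adjoin_map, ← Set.range_comp, ← AlgHom.fieldRange_eq_map,
      IntermediateField.fieldRange_val]
    rfl
  let i0 : Algebra k₁ k' := ((algebraMap k k').comp (algebraMap k₁ k)).toAlgebra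
  have i0' : IsScalarTower k₁ k k' := IsScalarTower.of_algebraMap_eq fun _ => rfl
  let i1 : Algebra k₁ K' := ((algebraMap k' K').comp (algebraMap k₁ k')).toAlgebra
  have i2 : IsScalarTower k₁ k' K' := IsScalarTower.of_algebraMap_eq fun _ => rfl
  let i3 : Algebra k (kbar k' K') :=
    ((algebraMap k' (kbar k' K')).comp (algebraMap k k')).toAlgebra
  have i4 : IsScalarTower k k' (kbar k' K') := IsScalarTower.of_algebraMap_eq fun _ => rfl
  have i5 : Algebra.IsAlgebraic k (kbar k' K') := Algebra.IsAlgebraic.trans k k' (kbar k' K')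
  have hC0 : CharZero C := charZero_of_injective_algebraMap (algebraMap k C).injective
  -- the transport
  have hcom : ∀ (φ : C ≃ₐ[k] kbar k' K') (y : k), φ (algebraMap k C y) =
      algebraMap k' (kbar k' K') (algebraMap k k' y) := fun φ y => φ.commutes y
  have efφ : ∀ φ : C ≃ₐ[k] kbar k' K', (fun q => (φ : C →+* kbar k' K') (algebraMap k C (f q))) =
      fun q => algebraMap k' (kbar k' K') (algebraMap k k' (f q)) := fun φ =>
    funext fun q => hcom φ (f q)
  have erelφ : ∀ φ : C ≃ₐ[k] kbar k' K',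
      (fun u q => (φ : C →+* kbar k' K') (algebraMap k C (rel u q))) =
      fun u q => algebraMap k' (kbar k' K') (algebraMap k k' (rel u q)) := fun φ =>
    funext fun u => funext fun q => hcom φ (rel u q)
  have hf' : evP x (fun q => algebraMap k' (kbar k' K') (algebraMap k k' (f q))) = 0 :=
    evP_const hf
  have hrel' : ∀ u, evP x (fun q => algebraMap k' (kbar k' K') (algebraMap k k' (rel u q))) = 0 :=
    fun u => evP_const (hrel u)
  have hcombφ : ∀ (φ : C ≃ₐ[k] kbar k' K') {a b : ℕ} (H : MonV (N + 2) a → C)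
      (H' : U → MonV (N + 2) b → C), MvPolynomial.map (φ : C →+* kbar k' K')
        (comb (fun q => algebraMap k C (f q)) (fun u q => algebraMap k C (rel u q)) H H') =
      comb (fun q => algebraMap k' (kbar k' K') (algebraMap k k' (f q)))
        (fun u q => algebraMap k' (kbar k' K') (algebraMap k k' (rel u q)))
        (fun q => φ (H q)) (fun u q => φ (H' u q)) := by
    intro φ a b H H'
    rw [map_comb, efφ, erelφ]
    rfl
  have hnrmφ : ∀ (φ : C ≃ₐ[k] kbar k' K') i, pol (fun q => φ (D i q)) * pol (fun q => φ (G i q)) +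
      comb (fun q => algebraMap k' (kbar k' K') (algebraMap k k' (f q)))
        (fun u q => algebraMap k' (kbar k' K') (algebraMap k k' (rel u q)))
        (fun q => φ (D' i q)) (fun u q => φ (D'' i u q)) = polX fun l => φ (c i l) := by
    intro φ i
    have h1 := congrArg (MvPolynomial.map (φ : C →+* kbar k' K')) (hnrm i)
    rw [map_add, map_mul, map_pol, map_pol, hcombφ, map_polX] at h1
    exact h1
  have hcφ : ∀ (φ : C ≃ₐ[k] kbar k' K') i, (fun l => φ (c i l)) ≠ 0 := by
    intro φ i h0
    apply hc0 i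
    funext l
    exact (map_eq_zero φ).1 (congrFun h0 l)
  have hG0 : ∀ (φ : C ≃ₐ[k] kbar k' K') i, evP x (fun q => φ (G i q)) ≠ 0 := by
    intro φ i h0
    have h1 := congrArg (MvPolynomial.aeval fun v => algebraMap K' (AlgebraicClosure K') (x v))
      (hnrmφ φ i)
    rw [map_add, map_mul, aeval_comb hf' hrel', add_zero] at h1
    change _ * evP x (fun q => φ (G i q)) = _ at h1
    rw [h0, mul_zero] at h1
    exact evP_polX_ne hx (hcφ φ i) h1.symm
  have hprodφ : ∀ φ : C ≃ₐ[k] kbar k' K', ∏ i, pol (fun q => φ (G i q)) =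
      MvPolynomial.C (algebraMap k' (kbar k' K') (algebraMap k k' T)) *
        pol (fun q => φ (W q)) ^ p +
      comb (fun q => algebraMap k' (kbar k' K') (algebraMap k k' (f q)))
        (fun u q => algebraMap k' (kbar k' K') (algebraMap k k' (rel u q)))
        (fun q => φ (H q)) (fun u q => φ (H' u q)) := by
    intro φ
    have h1 := congrArg (MvPolynomial.map (φ : C →+* kbar k' K')) hprod
    rw [map_prod, map_add, map_mul, map_pow, MvPolynomial.map_C, hcombφ, map_pol] at h1
    simp only [map_pol] at h1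
    have h2 : (φ : C →+* kbar k' K') (algebraMap k C T) =
      algebraMap k' (kbar k' K') (algebraMap k k' T) := hcom φ T
    rw [h2] at h1
    exact h1
  have hcopφ : ∀ (φ : C ≃ₐ[k] kbar k' K') i j, i ≠ j → Cop (fun q => φ (G i q))
      (fun q => φ (G j q)) (fun q => algebraMap k' (kbar k' K') (algebraMap k k' (f q)))
        (fun u q => algebraMap k' (kbar k' K') (algebraMap k k' (rel u q))) M := by
    intro φ i j hij q
    obtain ⟨A, B, H, H', h⟩ := hcop i j hij q
    refine ⟨fun q => φ (A q), fun q => φ (B q), fun q => φ (H q), fun u q => φ (H' u q), ?_⟩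
    have h1 := congrArg (MvPolynomial.map (φ : C →+* kbar k' K')) h
    rw [map_add, map_add, map_mul, map_mul, map_pol, map_pol, map_pol, map_pol, hcombφ,
      MvPolynomial.map_monomial, map_one] at h1
    exact h1
  have hTk : (algebraMap k' (kbar k' K') (algebraMap k k' T)) ≠ 0 :=
    (_root_.map_ne_zero _).2 ((_root_.map_ne_zero _).2 hT)
  obtain ⟨z, hz, hI⟩ := SX.exists_lev hp hd s (C := C)
    (v := fun q : MonV (N + 2) n => q.1.prod fun i e => x i ^ e)
    (v' := fun q : MonV (N + 2) (r * n) => q.1.prod fun i e => x i ^ e) (G := G) (W := W) hT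
    (fun φ i => by rw [evl_eq]; exact hG0 φ i)
    (fun φ => by
      simp only [evl_eq]
      have h1 := congrArg (MvPolynomial.aeval fun v => algebraMap K' (AlgebraicClosure K') (x v))
        (hprodφ φ)
      rw [map_prod, map_add, map_mul, aeval_comb hf' hrel', add_zero, map_pow,
        MvPolynomial.aeval_C] at h1
      exact h1)
    (fun φ i j hij w hw => by
      rw [evl_eq, evl_eq] at hw
      exact root_mem_Kur hp hd hnM hf' hrel' hTk (hprodφ φ) (hcopφ φ) (hG0 φ) hij hw)
  refine ⟨z, by rw [← hdeg]; have := IsAlgClosure.isAlgClosed (R := k) (K := C); exact levZ_pow hp hT hz, ?_⟩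
  intro M₁ M₂ m e₁ e₂ ρ S R V V' A B Hd Hd' hdisc hsub P hPtop hk₁P hgood i j hij hGi hGj hDi hDj
    hci hcj σ hσ hσi hσj
  have hpinv : (p : C)⁻¹ ∈ P := by
    have h1 := hk₁P ((p : k₁)⁻¹)
    rwa [map_inv₀, map_inv₀, map_natCast, map_natCast] at h1
  refine hI P hpinv i j hij ?_ σ hσ hσi hσj
  intro φ τ hτi hτj hτ ω hω w hwK hw
  rw [evl_eq, evl_eq] at hw
  set P' : ValuationSubring (kbar k' K') :=
    P.comap ((φ.symm : kbar k' K' ≃+* C) : kbar k' K' →+* C) with hP'
  have hmem : ∀ w : kbar k' K', w ∈ P' ↔ φ.symm w ∈ P := fun w => Iff.rfl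
  have hmem' : ∀ y : C, φ y ∈ P' ↔ y ∈ P := fun y => by rw [hmem, φ.symm_apply_apply]
  have hmemk : ∀ y : k, algebraMap k' (kbar k' K') (algebraMap k k' y) ∈ P' ↔
      algebraMap k C y ∈ P := fun y => by rw [← hcom φ, hmem']
  have hP'top : P' ≠ ⊤ := by
    intro h
    apply hPtop
    rw [eq_top_iff]
    intro y _
    rw [← hmem', h]
    trivial
  have hc'V : ∀ i, (∃ l, c i l ≠ 0 ∧ (c i l)⁻¹ ∈ P) → ∃ l, φ (c i l) ≠ 0 ∧ (φ (c i l))⁻¹ ∈ P' := by
    rintro i ⟨l, h4, h5⟩
    refine ⟨l, (_root_.map_ne_zero φ).2 h4, ?_⟩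
    rw [← map_inv₀, hmem']
    exact h5
  have hgood' : GoodV P' (fun v j i => algebraMap k k' (S v j i)) (fun i => algebraMap k k' (R i))
      (fun i => algebraMap k k' (V i)) (fun i => algebraMap k k' (V' i))
      (fun v j i => algebraMap k k' (B v j i)) := by
    refine ⟨fun v j i => (hmemk _).2 (hgood.s_mem v j i), fun i => (hmemk _).2 (hgood.R_mem i), ?_,
      fun i => (hmemk _).2 (hgood.V_mem i), fun i => (hmemk _).2 (hgood.V'_mem i),
      fun v j i => (hmemk _).2 (hgood.B_mem v j i)⟩
    rw [← map_inv₀, ← map_inv₀, hmemk, map_inv₀]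
    exact hgood.R_lead
  have hroot : ∀ v, eval₂ (aeval (x 0) : k'[X] →ₐ[k'] K').toRingHom (x v)
      (monYX fun j i => algebraMap k k' (S v j i)) = 0 := by
    intro v
    have h1 := congrArg (MvPolynomial.map (algebraMap k k')) (hsub v)
    rw [map_pow, map_subV, map_monYX, map_comb] at h1
    have h2 := congrArg (MvPolynomial.aeval x) h1
    rw [map_pow, aeval_comb hf hrel, aeval_subV] at h2
    exact eq_zero_of_pow_eq_zero h2
  exact root_inert (k₁ := k₁) hF₁ (algebraMap k k' t) (PL.fin_ext hfin) hx hgen hf hrel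
    (hdisc.map (algebraMap k k')) hroot s hp.ne' hP'top
    (fun a => (hmemk _).2 (hk₁P a)) hgood' (hnrmφ φ i) (hnrmφ φ j)
    (fun q => (hmem' _).2 (hGi q)) (fun q => (hmem' _).2 (hDi q)) (hc'V i hci)
    (fun q => (hmem' _).2 (hGj q)) (fun q => (hmem' _).2 (hDj q)) (hc'V j hcj)
    hwK hw hτ hτi hτj hω

end Pool.Agent.SX
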