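import Pool.Agent.Helper13.BT.N3
import Pool.Agent.Helper13.SX.D2
import Pool.Agent.Helper13.SX.FW

/-!
# Project SX: bounded data and factorisation in the ultrapower
-/

universe u v w

set_option linter.unusedVariables false

namespace Pool.Agent.SX

open Pool.Agent.Helper37.UL Pool.Agent.TD Pool.Agent.BT

variable {J : Type v} {Uf : Ultrafilter J} {F k C : Type u} [Field F] [Field k] [Field C]
  [Algebra F k] [Algebra k C] [IsAlgClosed C] [CharZero C] {S : Type (max v u)} [Field S]
  {π : (J → C) →+* S} (h : UP Uf π) {p : ℕ}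

/-- **Factorisation of the constants.** -/
theorem exists_eg (hp : 0 < p) [IsAlgClosed S] [CharZero S]
    {κ : Subfield C} (hκ : ∀ x : C, IsAlgebraic κ x → x ∈ κ)
    (hFκ : ∀ a : F, algebraMap k C (algebraMap F k a) ∈ κ)
    {T q : k} (hT : Transcendental κ (algebraMap k C T))
    (halg : ∀ x : C, IsAlgebraic (Subfield.closure ((κ : Set C) ∪ {algebraMap k C T})) x)
    (hk : ∀ a : k, algebraMap k C a ∈
      Subfield.closure ((κ : Set C) ∪ {algebraMap k C T, algebraMap k C q}))
    {κ0 k0 : Subfield S} (hκ0 : κ0 ≤ h.gsub κ) (hκ0cl : ∀ x : S, IsAlgebraic κ0 x → x ∈ κ0)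
    (hκ0k0 : ∀ x ∈ κ0, IsAlgebraic k0 x) (htk0 : UP.cst π (algebraMap k C T) ∈ k0)
    {N df d n M₁ M₂ m M M₃ e₁ e₂ : ℕ} {U : Type} [Fintype U] {e : U → ℕ}
    {f : J → MonV (N + 2) df → k} {rel : J → ∀ u, MonV (N + 2) (e u) → k}
    {G : J → Fin d → MonV (N + 2) n → C} {D : J → Fin d → MonV (N + 2) M → C}
    {c : J → Fin d → Fin (M₃ + 1) → C}
    {z : J → Fin d → Fin d → C} {ρ : Fin (N + 2) → ℕ}
    {Sv : J → ∀ v, Fin (ρ v) → Fin (M₂ + 1) → k}
    {A B : J → Fin (N + 2) → Fin (M₂ + 1) → Fin (M₂ + 1) → k} {R V V' : J → Fin (M₁ + 1) → k}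
    (aS : ∀ v j i, IsAlgebraic (Subfield.closure ((κ0 : Set S) ∪ {UP.cst π (algebraMap k C T)}))
      (π fun a => algebraMap k C (Sv a v j i)))
    (aB : ∀ v j i, IsAlgebraic (Subfield.closure ((κ0 : Set S) ∪ {UP.cst π (algebraMap k C T)}))
      (π fun a => algebraMap k C (B a v j i)))
    (aR : ∀ q, IsAlgebraic (Subfield.closure ((κ0 : Set S) ∪ {UP.cst π (algebraMap k C T)}))
      (π fun a => algebraMap k C (R a q)))
    (aV : ∀ q, IsAlgebraic (Subfield.closure ((κ0 : Set S) ∪ {UP.cst π (algebraMap k C T)}))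
      (π fun a => algebraMap k C (V a q)))
    (aV' : ∀ q, IsAlgebraic (Subfield.closure ((κ0 : Set S) ∪ {UP.cst π (algebraMap k C T)}))
      (π fun a => algebraMap k C (V' a q)))
    (aG : ∀ i q, IsAlgebraic (Subfield.closure ((κ0 : Set S) ∪ {UP.cst π (algebraMap k C T)}))
      (π fun a => G a i q))
    (aD : ∀ i q, IsAlgebraic (Subfield.closure ((κ0 : Set S) ∪ {UP.cst π (algebraMap k C T)}))
      (π fun a => D a i q))
    (ac : ∀ i q, IsAlgebraic (Subfield.closure ((κ0 : Set S) ∪ {UP.cst π (algebraMap k C T)}))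
      (π fun a => c a i q))
    (aq : IsAlgebraic (Subfield.closure ((κ0 : Set S) ∪ {UP.cst π (algebraMap k C T)}))
      (UP.cst π (algebraMap k C q)))
    (hc0 : ∀ i, ∃ l, (π fun a => c a i l) ≠ 0)
    (hev : ∀ᶠ a in (Uf : Filter J),
      (DiscV (Sv a) (R a) (V a) (V' a) (A a) (B a) e₁ ∧
      ∀ v, ∃ (H : MonV (N + 2) m → k) (H' : U → MonV (N + 2) m → k),
        subV N v (monYX (Sv a v)) ^ e₂ = comb (f a) (rel a) H H') ∧
      ((∀ i j, i ≠ j → z a i j ≠ 0) ∧ ∀ i j, i ≠ j → z a i j ^ p ∈ IntermediateField.adjoin k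
        (PL.mu C p ∪ (Set.range (G a i) ∪ Set.range (G a j)))) ∧
      LevIV F (f a) (rel a) (G a) (D a) (c a) (z a)) :
    ∀ i j, i ≠ j → ∃ e₀ g : S, IsAlgebraic k0 e₀ ∧
      g ∈ Subfield.closure ((h.gsub (Subfield.closure ((κ : Set C) ∪ {algebraMap k C T})) : Set S) ∪
        insert (UP.cst π (algebraMap k C q)) ((Set.range fun q => π fun a => G a i q) ∪
          Set.range fun q => π fun a => G a j q)) ∧
      (π fun a => z a i j) = e₀ * g := by
  classical
  choose l hl using hc0
  set t' := UP.cst π (algebraMap k C T) with ht'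
  -- the entries
  let E : J → Ent N d n M₁ M₂ M ρ → C := fun a o => match o with
    | .S v j i => algebraMap k C (Sv a v j i)
    | .R i => algebraMap k C (R a i)
    | .Ri => (algebraMap k C (R a (Fin.last M₁)))⁻¹
    | .V i => algebraMap k C (V a i)
    | .V' i => algebraMap k C (V' a i)
    | .B v j i => algebraMap k C (B a v j i)
    | .G i q => G a i q
    | .D i q => D a i q
    | .ci i => (c a i (l i))⁻¹
    | .q => algebraMap k C q
  have hE : ∀ o, IsAlgebraic (Subfield.closure ((κ0 : Set S) ∪ {t'})) (π fun a => E a o) := by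
    intro o
    cases o with
    | S v j i => exact aS v j i
    | R i => exact aR i
    | Ri =>
      change IsAlgebraic _ (π (fun a => algebraMap k C (R a (Fin.last M₁)))⁻¹)
      rw [h.map_inv]
      exact (aR _).inv
    | V i => exact aV i
    | V' i => exact aV' i
    | B v j i => exact aB v j i
    | G i q => exact aG i q
    | D i q => exact aD i q
    | ci i =>
      change IsAlgebraic _ (π (fun a => c a i (l i))⁻¹)
      rw [h.map_inv]
      exact (ac _ _).inv
    | q => exact aq
  obtain ⟨M', D₀, m', b', b, hD₀, hb', hb'0, hbb', hbad⟩ := PC.exists_bad h hκ hT hκ0 hE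
  let r := Fintype.card (Pr (MonV (N + 2) n))
  let eqv : Fin r ≃ Pr (MonV (N + 2) n) := (Fintype.equivFin _).symm
  obtain ⟨B₀, hB₀, hdata⟩ := SX.data_vec.{u} r D₀ m' M' p hp hD₀
  intro i j hij
  let v : J → Fin r → C := fun a => prv (algebraMap k C q) (G a i) (G a j) ∘ eqv
  have hrv : ∀ a, Set.range (v a) = insert (algebraMap k C q)
      (Set.range (G a i) ∪ Set.range (G a j)) := by
    intro a
    change Set.range (prv (algebraMap k C q) (G a i) (G a j) ∘ eqv) = _
    rw [Set.range_comp, eqv.surjective.range_eq, Set.image_univ, range_prv]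
  have hmuκ : ∀ ξ ∈ PL.mu C p, ξ ∈ κ := by
    intro ξ hξ
    apply hκ
    apply IsAlgebraic.of_pow hp
    have h1 : ξ ^ p = 1 := hξ
    rw [h1]
    exact isAlgebraic_one
  have hce : ∀ᶠ a in (Uf : Filter J), ∀ i, c a i (l i) ≠ 0 := by
    rw [Filter.eventually_all]
    intro i
    exact (h.ne0 _).1 (hl i)
  have hev2 : ∀ᶠ a in (Uf : Filter J), DataR κ
      (Subfield.closure ((κ : Set C) ∪ {algebraMap k C T})) (algebraMap k C T) D₀ 0 p B₀
      (fun (_ : Fin (0 + 1)) l => b a l) (v a) (z a i j) := by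
    filter_upwards [hev, hbad, hce] with a ha hba hca
    obtain ⟨⟨hd1, hd2⟩, hz, hI⟩ := ha
    obtain ⟨hb1, hb2, hb3, hb4⟩ := hba
    choose Hd Hd' hdd using hd2
    -- the field of `k`
    have hle : ∀ S' : Set C, insert (algebraMap k C q) S' ⊆ Set.range (v a) →
        ∀ x : k, algebraMap k C x ∈
          Subfield.closure ((κ : Set C) ∪ insert (algebraMap k C T) (Set.range (v a))) := by
      intro S' hS' x
      have h1 : Subfield.closure ((κ : Set C) ∪ {algebraMap k C T, algebraMap k C q}) ≤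
          Subfield.closure ((κ : Set C) ∪ insert (algebraMap k C T) (Set.range (v a))) := by
        apply Subfield.closure_mono
        rintro y (hy | hy | hy)
        · exact Or.inl hy
        · exact Or.inr (Or.inl hy)
        · refine Or.inr (Or.inr (hS' ?_))
          rw [Set.mem_singleton_iff.1 hy]
          exact Or.inl rfl
      exact h1 (hk x)
    have hkv : ∀ x : k, algebraMap k C x ∈
          Subfield.closure ((κ : Set C) ∪ insert (algebraMap k C T) (Set.range (v a))) :=
      hle (Set.range (G a i) ∪ Set.range (G a j)) (by rw [hrv])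
    have hGi : ∀ q, G a i q ∈
        Subfield.closure ((κ : Set C) ∪ insert (algebraMap k C T) (Set.range (v a))) := by
      intro q
      refine Subfield.subset_closure (Or.inr (Or.inr ?_))
      rw [hrv]
      exact Or.inr (Or.inl ⟨q, rfl⟩)
    have hGj : ∀ q, G a j q ∈
        Subfield.closure ((κ : Set C) ∪ insert (algebraMap k C T) (Set.range (v a))) := by
      intro q
      refine Subfield.subset_closure (Or.inr (Or.inr ?_))
      rw [hrv]
      exact Or.inr (Or.inr ⟨q, rfl⟩)
    refine hdata hκ hT halg ?_ (hz.1 i j hij) ?_ hb1 hb2 ?_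
    · intro o
      change ∃ c : Fin (D₀ + 1) → Fin (m' + 1) → C, (∀ l j, c l j ∈ κ) ∧ c (Fin.last D₀) ≠ 0 ∧
        ∑ l, (∑ j, c l j * algebraMap k C T ^ (j : ℕ)) *
          (prv (algebraMap k C q) (G a i) (G a j) (eqv o)) ^ (l : ℕ) = 0
      rcases eqv o with _ | (o' | o')
      · exact hb4 .q
      · exact hb4 (.G i o')
      · exact hb4 (.G j o')
    · have h1 := hz.2 i j hij
      have h2 : (IntermediateField.adjoin k (PL.mu C p ∪ (Set.range (G a i) ∪
          Set.range (G a j)))).toSubfield ≤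
          Subfield.closure ((κ : Set C) ∪ insert (algebraMap k C T) (Set.range (v a))) := by
        rw [IntermediateField.adjoin_toSubfield, Subfield.closure_le]
        rintro x (⟨y, rfl⟩ | hx | ⟨q, rfl⟩ | ⟨q, rfl⟩)
        · exact hkv y
        · exact Subfield.subset_closure (Or.inl (hmuκ x hx))
        · exact hGi q
        · exact hGj q
      exact h2 h1
    · intro P hP t₀ ht₀ hVt hbt σ hσ
      have hVE := hb3 P hP t₀ ht₀ hVt hbt
      have hVtop : P ≠ ⊤ := by
        rintro rfl
        have h1 : algebraMap k C T - t₀ ≠ 0 := by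
          intro h0
          apply hT
          rw [sub_eq_zero.1 h0]
          exact isAlgebraic_algebraMap (⟨t₀, ht₀⟩ : κ)
        have h2 := ((⊤ : ValuationSubring C).mem_nonunits_iff).2 hVt
        rw [ValuationSubring.mem_nonunits_iff_or] at h2
        rcases h2 with h2 | h2
        · exact h1 h2
        · exact h2 trivial
      exact hI hd1 hdd P hVtop (fun x => hP _ (hFκ x))
        ⟨fun v j i => hVE (.S v j i), fun q => hVE (.R q), hVE .Ri, fun q => hVE (.V q),
          fun q => hVE (.V' q), fun v j i => hVE (.B v j i)⟩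
        i j hij (fun q => hVE (.G i q)) (fun q => hVE (.G j q))
        (fun q => hVE (.D i q)) (fun q => hVE (.D j q)) ⟨l i, hca i, hVE (.ci i)⟩
        ⟨l j, hca j, hVE (.ci j)⟩ σ ⟨by
          rintro _ ⟨x, rfl⟩
          exact hσ.fix _ (hkv x), hσ.dec, hσ.res⟩ (fun q => hσ.fix _ (hGi q))
        (fun q => hσ.fix _ (hGj q))
  have hD := PC.up_data_ev h hev2
  have hz0 : (π fun a => z a i j) ≠ 0 := by
    rw [h.ne0]
    filter_upwards [hev] with a ha
    exact ha.2.1.1 i j hij
  let v' : Fin r → S := fun o => π fun a => v a o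
  have hv' : ∀ o, v' o = prv (UP.cst π (algebraMap k C q)) (fun q => π fun a => G a i q)
      (fun q => π fun a => G a j q) (eqv o) := by
    intro o
    change (π fun a => prv (algebraMap k C q) (G a i) (G a j) (eqv o)) = _
    rcases eqv o with _ | (o' | o')
    · rfl
    · rfl
    · rfl
  have hrv' : Set.range v' = insert (UP.cst π (algebraMap k C q))
      ((Set.range fun q => π fun a => G a i q) ∪ Set.range fun q => π fun a => G a j q) := by
    have h1 : v' = prv (UP.cst π (algebraMap k C q)) (fun q => π fun a => G a i q)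
      (fun q => π fun a => G a j q) ∘ eqv := funext hv'
    rw [h1, Set.range_comp, eqv.surjective.range_eq, Set.image_univ, range_prv]
  have halg' : ∀ o, IsAlgebraic (IntermediateField.adjoin κ0 {t'}) (v' o) := by
    intro o
    have h1 : IsAlgebraic (IntermediateField.adjoin κ0 {t'}).toSubfield (v' o) := by
      rw [PL.adjoin_toSubfield, hv']
      rcases eqv o with _ | (o' | o')
      · exact aq
      · exact aG i o'
      · exact aG j o'
    exact h1
  have hcl2 : ∀ x : S, IsAlgebraic (h.gsub κ) x → x ∈ h.gsub κ := fun x hx =>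
    h.gsub_algClosed hκ hx
  have hT' : Transcendental (h.gsub κ) t' := by
    have h1 : AlgebraicIndependent κ ![algebraMap k C T] := by
      rw [algebraicIndependent_unique_type_iff]
      exact hT
    have := (h.algInd h1).transcendental 0
    exact this
  have hbfun : (fun (_ : Fin (0 + 1)) (l : Fin (M' + 1)) => π fun a => b a l) =
      fun (_ : Fin (0 + 1)) l => b' l := by
    funext _ l
    exact hbb' l
  rw [hbfun] at hD
  have hle1 : h.gsub κ ≤ h.gsub (Subfield.closure ((κ : Set C) ∪ {algebraMap k C T})) :=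
    h.gsub_mono fun x hx => Subfield.subset_closure (Or.inl hx)
  have hTg : t' ∈ h.gsub (Subfield.closure ((κ : Set C) ∪ {algebraMap k C T})) :=
    h.const_mem_gsub.mpr (Subfield.subset_closure (Or.inr rfl))
  obtain ⟨e₀, g, he₀, hg, heg⟩ := SX.exists_factorW hκ0 hκ0cl hcl2 hT'
    hle1 hTg hκ0k0 htk0 hp hB₀ hb' hb'0
    (ψ := v') halg' (v := v') (fun o => ⟨o, rfl⟩) hz0 hD
  rw [hrv'] at hg
  exact ⟨e₀, g, he₀, hg, heg⟩

end Pool.Agent.SX
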