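import Pool.Agent.Helper13.BT.N7
import Pool.Agent.Helper13.SX.N6
import Pool.Agent.Helper13.SX.LevS

/-!
# Project SX: the curves with a section form a thin set
-/

universe u

namespace Pool.Agent.SX

open Pool.Agent.Helper37.UL UL Pool.Agent.PL Pool.Agent.BT

/-- the key statement -/
theorem key_of_noe {k : Type u} [Field k] {p ν d r : ℕ} (hp : 0 < p) (hν : ¬ p ∣ ν) (hd : d = p * r)
    (hd3 : 3 ≤ d) {N t : ℕ} {ds : Fin t → ℕ} {U : Type} [Fintype U] {e : U → ℕ}
    {hh : ∀ u, MonV (N + 2) (e u) → k} (hNoe : NoeV ds hh) :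
    Key k fun a : IxV (N + 2) d ds → k => HasSecX p ν (mainS a) (relS (othS a) hh) := by
  intro F _ _ _ hF T q hT hq htop hfd κ hκ hs m w hw0 hw1
  by_contra hcon
  let J : Type u := {a : IxV (N + 2) d ds × Fin (m + 2) → F //
    HasSecX p ν (mainS (sysW w a)) (relS (othS (sysW w a)) hh)}
  refine SX.no_family (J := J) (F := F) (k := k) (C := AlgebraicClosure k) hT hq htop hκ hs hp hν hd
    hd3 hw0 hw1 hNoe (vv := Subtype.val) ?_ fun a =>
      hasLevX_of_hasSecX hF T hfd hp hd a.2 (AlgebraicClosure k)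
  rw [Subtype.range_coe_subtype]
  exact hcon

/-- scaling -/
theorem hasSecX_smul {k : Type u} [Field k] {p ν N d t : ℕ} {ds : Fin t → ℕ} {U : Type}
    {e : U → ℕ} {hh : ∀ u, MonV (N + 2) (e u) → k} (c : k) (a : IxV (N + 2) d ds → k)
    (h : HasSecX p ν (mainS a) (relS (othS a) hh)) :
    HasSecX p ν (mainS fun q => c * a q) (relS (othS fun q => c * a q) hh) := by
  have h1 := h.smul c (Sum.elim (fun _ => c) fun _ => 1)
  have h2 : (fun u q => Sum.elim (fun _ => c) (fun _ => 1) u * relS (othS a) hh u q) =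
      relS (othS fun q => c * a q) hh := by
    funext u
    rcases u with s | u
    · rfl
    · funext q
      exact one_mul _
  rw [h2] at h1
  exact h1

/-- **Linear systems of complete intersection curves: the curves with a Galois section over an extension of
degree not divisible by `p` form a thin set.**  Here `p` is any divisor of the degree `d`. -/
theorem thin_curves {F k : Type u} [Field F] [CharZero F] [Field k] [Algebra F k]
    (hF : ∃ S : Finset F, Subfield.closure (S : Set F) = ⊤)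
    (hk : ∃ S : Finset k, Subfield.closure (S : Set k) = ⊤) {p d : ℕ} (hp : 0 < p)
    (hpd : p ∣ d) (hd3 : 3 ≤ d) {m : ℕ} {w : Fin (m + 1) → k} {i j : Fin (m + 1)}
    (hT : Transcendental F (w i / w j)) {N t : ℕ} {ds : Fin t → ℕ} {U : Type} [Fintype U]
    {e : U → ℕ} {hh : ∀ u, MonV (N + 2) (e u) → k} (hNoe : NoeV ds hh) :
    IsThin {a : IxV (N + 2) d ds × Fin (m + 1) → F |
      BT.HasSecV p (mainS (sysW w a)) (relS (othS (sysW w a)) hh)} := by
  obtain ⟨r, hr⟩ := hpd
  have h1 := IsThin.biUnion (F := F) (Finset.univ : Finset (Fin p))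
    (A := fun ν : Fin p => {a : IxV (N + 2) d ds × Fin (m + 1) → F | 0 < (ν : ℕ) ∧
      HasSecX p ν (mainS (sysW w a)) (relS (othS (sysW w a)) hh)}) (fun ν _ => by
    by_cases hν : 0 < (ν : ℕ)
    · refine IsThin.mono (thin_of_key (P := fun a : IxV (N + 2) d ds → k =>
        HasSecX p ν (mainS a) (relS (othS a) hh)) (fun c a _ h => hasSecX_smul c a h)
        (key_of_noe hp (Nat.not_dvd_of_pos_of_lt hν ν.2) hr hd3 hNoe) hF hk hT) fun a ha => ha.2
    · refine IsThin.mono IsThin.empty fun a ha => ?_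
      exact absurd ha.1 hν)
  refine IsThin.mono h1 fun a ha => ?_
  obtain ⟨ν, hν1, hν2, h2⟩ := hasSecX_of_hasSecV hp ha
  exact Set.mem_iUnion₂.2 ⟨⟨ν, hν2⟩, Finset.mem_univ _, hν1, h2⟩

end Pool.Agent.SX
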